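import Mathlib

/-!
Lipschitz interpolation of `L^γ[0,1]` between `L^β[0,1]` and `L^α[0,1]`, `1 ≤ β < γ < α < ∞`.
-/

set_option autoImplicit false

open MeasureTheory Set Filter Topology
open scoped ENNReal NNReal

namespace Pool.Agent.Results.MP_6e3e44_an.LipschitzInterpolation

/-- The Lebesgue measure on `[0, 1]`. -/
noncomputable abbrev lam : Measure ℝ := volume.restrict (Icc (0 : ℝ) 1)

/-- The (classes modulo null sets of) measurable complex-valued functions on `[0, 1]`. -/
abbrev Fun01 := ℝ →ₘ[lam] ℂ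

/-- The norm `‖x‖_p = (∫₀¹ |x(t)|^p dt)^(1/p)`, with values in `[0, ∞]`. -/
noncomputable def nrm (p : ℝ) (x : Fun01) : ℝ≥0∞ := eLpNorm x (ENNReal.ofReal p) lam

/-- `x ∈ L^p[0, 1]`. -/
def InLp (p : ℝ) (x : Fun01) : Prop := nrm p x < ⊤

/-- `U` maps `L^p` into `L^p` and `‖U x - U y‖_p ≤ M ‖x - y‖_p` for all `x, y ∈ L^p`. -/
def LipschitzOnLp (p : ℝ) (M : ℝ≥0) (U : Fun01 → Fun01) : Prop :=
  (∀ x, InLp p x → InLp p (U x)) ∧
    ∀ x y, InLp p x → InLp p y → nrm p (U x - U y) ≤ M * nrm p (x - y)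

section Integrals

variable {c p r : ℝ}

theorem int1 (hq : 0 < r) (hc : 0 ≤ c) :
    ∫⁻ t in Ioi (0 : ℝ), ENNReal.ofReal (if t < c then t ^ (r - 1) else 0)
      = ENNReal.ofReal (c ^ r / r) := by
  have e : (fun t : ℝ => if t < c then t ^ (r - 1) else 0) =
      Set.indicator (Set.Iio c) (fun t => t ^ (r - 1)) := by
    funext t
    simp only [Set.indicator, Set.mem_Iio]
  have hs : Set.Iio c ∩ Set.Ioi 0 = Set.Ioo 0 c := by
    ext t
    simp only [Set.mem_inter_iff, Set.mem_Iio, Set.mem_Ioi, Set.mem_Ioo]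
    tauto
  have hint : IntervalIntegrable (fun t : ℝ => t ^ (r - 1)) volume 0 c :=
    intervalIntegral.intervalIntegrable_rpow' (by linarith)
  have h1 : IntegrableOn (fun t : ℝ => if t < c then t ^ (r - 1) else 0) (Set.Ioi 0) := by
    rw [e, IntegrableOn, integrable_indicator_iff measurableSet_Iio, IntegrableOn,
      Measure.restrict_restrict measurableSet_Iio, hs]
    exact (intervalIntegrable_iff_integrableOn_Ioo_of_le hc).1 hint
  have h2 : ∫ t in Set.Ioi (0 : ℝ), (if t < c then t ^ (r - 1) else 0) = c ^ r / r := by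
    rw [e, integral_indicator measurableSet_Iio, Measure.restrict_restrict measurableSet_Iio, hs,
      ← integral_Ioc_eq_integral_Ioo, ← intervalIntegral.integral_of_le hc,
      integral_rpow (Or.inl (by linarith))]
    rw [sub_add_cancel, Real.zero_rpow hq.ne', sub_zero]
  rw [← h2, ofReal_integral_eq_lintegral_ofReal h1]
  refine (ae_restrict_iff' measurableSet_Ioi).2 (ae_of_all _ fun t ht => ?_)
  show (0 : ℝ) ≤ if t < c then t ^ (r - 1) else 0
  split_ifs
  · exact Real.rpow_nonneg (le_of_lt ht) _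
  · exact le_rfl

theorem int3 (hp : 0 < p) (hpr : p < r) (hc : 0 ≤ c) :
    ∫⁻ t in Ioi (0 : ℝ), ENNReal.ofReal (if c ≤ t then c ^ r * t ^ (p - 1 - r) else 0)
      = ENNReal.ofReal (c ^ p / (r - p)) := by
  rcases hc.eq_or_lt with rfl | hc'
  · rw [Real.zero_rpow (hp.trans hpr).ne', Real.zero_rpow hp.ne']
    simp
  have e : (fun t : ℝ => if c ≤ t then c ^ r * t ^ (p - 1 - r) else 0) =
      Set.indicator (Set.Ici c) (fun t => c ^ r * t ^ (p - 1 - r)) := by
    funext t
    simp only [Set.indicator, Set.mem_Ici]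
  have hs : Set.Ici c ∩ Set.Ioi 0 = Set.Ici c := by
    ext t
    simp only [Set.mem_inter_iff, Set.mem_Ici, Set.mem_Ioi]
    constructor
    · exact fun h => h.1
    · exact fun h => ⟨h, hc'.trans_le h⟩
  have hint : IntegrableOn (fun t : ℝ => c ^ r * t ^ (p - 1 - r)) (Set.Ici c) := by
    rw [integrableOn_Ici_iff_integrableOn_Ioi]
    exact (integrableOn_Ioi_rpow_of_lt (by linarith) hc').const_mul _
  have h1 : IntegrableOn (fun t : ℝ => if c ≤ t then c ^ r * t ^ (p - 1 - r) else 0)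
      (Set.Ioi 0) := by
    rw [e, IntegrableOn, integrable_indicator_iff measurableSet_Ici, IntegrableOn,
      Measure.restrict_restrict measurableSet_Ici, hs]
    exact hint
  have h2 : ∫ t in Set.Ioi (0 : ℝ), (if c ≤ t then c ^ r * t ^ (p - 1 - r) else 0)
      = c ^ p / (r - p) := by
    rw [e, integral_indicator measurableSet_Ici, Measure.restrict_restrict measurableSet_Ici, hs,
      integral_Ici_eq_integral_Ioi, integral_const_mul,
      integral_Ioi_rpow_of_lt (by linarith) hc']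
    have e1 : p - 1 - r + 1 = p - r := by ring
    have h2 : c ^ r * c ^ (p - r) = c ^ p := by
      rw [← Real.rpow_add hc']
      congr 1
      ring
    have h3 : r - p ≠ 0 := by linarith
    have h4 : p - r ≠ 0 := by linarith
    rw [e1, mul_div_assoc', mul_neg, h2]
    rw [div_eq_div_iff h4 h3]
    ring
  rw [← h2, ofReal_integral_eq_lintegral_ofReal h1]
  refine (ae_restrict_iff' measurableSet_Ioi).2 (ae_of_all _ fun t ht => ?_)
  show (0 : ℝ) ≤ if c ≤ t then c ^ r * t ^ (p - 1 - r) else 0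
  split_ifs
  · exact mul_nonneg (Real.rpow_nonneg hc _) (Real.rpow_nonneg (le_of_lt ht) _)
  · exact le_rfl

end Integrals

/-- The interpolation of the two distributional estimates. -/
theorem marc {Ω : Type*} [MeasurableSpace Ω] {μ : Measure Ω} [SFinite μ] {a b : Ω → ℝ}
    (ha : Measurable a) (hb : Measurable b) (ha0 : ∀ x, 0 ≤ a x) (hb0 : ∀ x, 0 ≤ b x)
    {β γ α : ℝ} (hβ : 0 < β) (hβγ : β < γ) (hγα : γ < α)
    (h : ∀ t : ℝ, 0 < t → μ {x | t < a x} ≤
      ENNReal.ofReal (t ^ (-β)) * ∫⁻ x, ENNReal.ofReal (if t < b x then b x ^ β else 0) ∂μ +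
      ENNReal.ofReal (t ^ (-α)) * ∫⁻ x, ENNReal.ofReal (if b x ≤ t then b x ^ α else 0) ∂μ) :
    ∫⁻ x, ENNReal.ofReal (a x ^ γ) ∂μ ≤
      ENNReal.ofReal (γ / (γ - β) + γ / (α - γ)) * ∫⁻ x, ENNReal.ofReal (b x ^ γ) ∂μ := by
  have hγ : 0 < γ := hβ.trans hβγ
  rw [lintegral_rpow_eq_lintegral_meas_lt_mul μ (ae_of_all _ ha0) ha.aemeasurable hγ]
  -- joint measurability
  have hm1 : Measurable fun q : ℝ × Ω =>
      ENNReal.ofReal (b q.2 ^ β * if q.1 < b q.2 then q.1 ^ (γ - β - 1) else 0) := by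
    refine ENNReal.measurable_ofReal.comp ?_
    refine Measurable.mul ((hb.comp measurable_snd).pow_const _) ?_
    exact Measurable.ite (measurableSet_lt measurable_fst (hb.comp measurable_snd))
      (measurable_fst.pow_const _) measurable_const
  have hm2 : Measurable fun q : ℝ × Ω =>
      ENNReal.ofReal (if b q.2 ≤ q.1 then b q.2 ^ α * q.1 ^ (γ - 1 - α) else 0) := by
    refine ENNReal.measurable_ofReal.comp ?_
    exact Measurable.ite (measurableSet_le (hb.comp measurable_snd) measurable_fst)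
      (((hb.comp measurable_snd).pow_const _).mul (measurable_fst.pow_const _)) measurable_const
  have hstep : ∫⁻ t in Ioi (0 : ℝ), μ {x | t < a x} * ENNReal.ofReal (t ^ (γ - 1)) ≤
      ∫⁻ t in Ioi (0 : ℝ), ((∫⁻ x, ENNReal.ofReal (b x ^ β *
          if t < b x then t ^ (γ - β - 1) else 0) ∂μ) +
        ∫⁻ x, ENNReal.ofReal (if b x ≤ t then b x ^ α * t ^ (γ - 1 - α) else 0) ∂μ) := by
    refine setLIntegral_mono' measurableSet_Ioi fun t ht => ?_
    have ht0 : 0 < t := ht
    refine (mul_le_mul_left (h t ht0) _).trans (le_of_eq ?_)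
    rw [add_mul]
    congr 1
    · rw [mul_comm (ENNReal.ofReal (t ^ (-β))), mul_assoc,
        ← ENNReal.ofReal_mul (Real.rpow_nonneg ht0.le _), ← Real.rpow_add ht0,
        ← lintegral_mul_const]
      · refine lintegral_congr fun x => ?_
        rw [← ENNReal.ofReal_mul (by split_ifs <;> [exact Real.rpow_nonneg (hb0 x) _; exact le_rfl])]
        congr 1
        have : -β + (γ - 1) = γ - β - 1 := by ring
        rw [this]
        split_ifs <;> simp
      · refine ENNReal.measurable_ofReal.comp ?_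
        exact Measurable.ite (measurableSet_lt measurable_const hb) (hb.pow_const _)
          measurable_const
    · rw [mul_comm (ENNReal.ofReal (t ^ (-α))), mul_assoc,
        ← ENNReal.ofReal_mul (Real.rpow_nonneg ht0.le _), ← Real.rpow_add ht0,
        ← lintegral_mul_const]
      · refine lintegral_congr fun x => ?_
        rw [← ENNReal.ofReal_mul (by split_ifs <;> [exact Real.rpow_nonneg (hb0 x) _; exact le_rfl])]
        congr 1
        have : -α + (γ - 1) = γ - 1 - α := by ring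
        rw [this]
        split_ifs <;> simp
      · refine ENNReal.measurable_ofReal.comp ?_
        exact Measurable.ite (measurableSet_le hb measurable_const) (hb.pow_const _)
          measurable_const
  refine (mul_le_mul_right hstep _).trans ?_
  have s1 := lintegral_lintegral_swap (μ := volume.restrict (Ioi (0 : ℝ))) (ν := μ)
    (f := fun t x => ENNReal.ofReal (b x ^ β * if t < b x then t ^ (γ - β - 1) else 0))
    hm1.aemeasurable
  have s2 := lintegral_lintegral_swap (μ := volume.restrict (Ioi (0 : ℝ))) (ν := μ)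
    (f := fun t x => ENNReal.ofReal (if b x ≤ t then b x ^ α * t ^ (γ - 1 - α) else 0))
    hm2.aemeasurable
  rw [lintegral_add_left (Measurable.lintegral_prod_right' hm1), s1, s2]
  have e1 : ∀ x, ∫⁻ t in Ioi (0 : ℝ), ENNReal.ofReal (b x ^ β *
      if t < b x then t ^ (γ - β - 1) else 0) = ENNReal.ofReal (1 / (γ - β)) *
        ENNReal.ofReal (b x ^ γ) := by
    intro x
    have h1 : ∀ t, ENNReal.ofReal (b x ^ β * if t < b x then t ^ (γ - β - 1) else 0) =
        ENNReal.ofReal (b x ^ β) * ENNReal.ofReal (if t < b x then t ^ (γ - β - 1) else 0) :=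
      fun t => ENNReal.ofReal_mul (Real.rpow_nonneg (hb0 x) _)
    simp only [h1]
    rw [lintegral_const_mul', int1 (by linarith) (hb0 x),
      ← ENNReal.ofReal_mul (Real.rpow_nonneg (hb0 x) _),
      ← ENNReal.ofReal_mul (by apply div_nonneg <;> linarith)]
    · congr 1
      have h2 : b x ^ γ = b x ^ β * b x ^ (γ - β) := by
        rcases (hb0 x).eq_or_lt with h0 | h0
        · rw [← h0, Real.zero_rpow hγ.ne', Real.zero_rpow hβ.ne', zero_mul]
        · rw [← Real.rpow_add h0]; congr 1; ring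
      rw [h2]
      ring
    · exact ENNReal.ofReal_ne_top
  have e2 : ∀ x, ∫⁻ t in Ioi (0 : ℝ), ENNReal.ofReal
      (if b x ≤ t then b x ^ α * t ^ (γ - 1 - α) else 0) = ENNReal.ofReal (1 / (α - γ)) *
        ENNReal.ofReal (b x ^ γ) := by
    intro x
    rw [int3 hγ hγα (hb0 x), ← ENNReal.ofReal_mul (by apply div_nonneg <;> linarith)]
    congr 1
    ring
  simp only [e1, e2]
  rw [lintegral_const_mul' _ _ ENNReal.ofReal_ne_top, lintegral_const_mul' _ _ ENNReal.ofReal_ne_top,
    ← add_mul, ← ENNReal.ofReal_add (by apply div_nonneg <;> linarith)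
      (by apply div_nonneg <;> linarith), ← mul_assoc, ← ENNReal.ofReal_mul hγ.le]
  refine le_of_eq ?_
  congr 2
  ring

instance : IsProbabilityMeasure lam := ⟨by simp [lam]⟩

theorem nrm_rpow {p : ℝ} (hp : 0 < p) (f : Fun01) :
    nrm p f ^ p = ∫⁻ x, ENNReal.ofReal (‖f x‖ ^ p) ∂lam := by
  unfold nrm
  have h1 : ENNReal.ofReal p ≠ 0 := by simpa using hp
  rw [eLpNorm_eq_lintegral_rpow_enorm_toReal h1 ENNReal.ofReal_ne_top,
    ENNReal.toReal_ofReal hp.le, ← ENNReal.rpow_mul, one_div, inv_mul_cancel₀ hp.ne',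
    ENNReal.rpow_one]
  refine lintegral_congr fun x => ?_
  rw [← ofReal_norm, ENNReal.ofReal_rpow_of_nonneg (norm_nonneg _) hp.le]

theorem nrm_mono {p q : ℝ} (hpq : p ≤ q) (f : Fun01) : nrm p f ≤ nrm q f :=
  eLpNorm_le_eLpNorm_of_exponent_le (ENNReal.ofReal_le_ofReal hpq) f.aestronglyMeasurable

theorem InLp.mono {p q : ℝ} (hpq : p ≤ q) {f : Fun01} (h : InLp q f) : InLp p f :=
  lt_of_le_of_lt (nrm_mono hpq f) h

theorem nrm_add {p : ℝ} (hp : 1 ≤ p) (f g : Fun01) : nrm p (f + g) ≤ nrm p f + nrm p g := by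
  unfold nrm
  rw [eLpNorm_congr_ae (AEEqFun.coeFn_add f g)]
  refine eLpNorm_add_le f.aestronglyMeasurable g.aestronglyMeasurable ?_
  rw [← ENNReal.ofReal_one]
  exact ENNReal.ofReal_le_ofReal hp

theorem nrm_neg {p : ℝ} (f : Fun01) : nrm p (-f) = nrm p f := by
  unfold nrm
  rw [eLpNorm_congr_ae (AEEqFun.coeFn_neg f), eLpNorm_neg]

theorem nrm_sub_comm {p : ℝ} (f g : Fun01) : nrm p (f - g) = nrm p (g - f) := by
  rw [← nrm_neg, neg_sub]

theorem InLp.add {p : ℝ} (hp : 1 ≤ p) {f g : Fun01} (hf : InLp p f) (hg : InLp p g) :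
    InLp p (f + g) :=
  lt_of_le_of_lt (nrm_add hp f g) (ENNReal.add_lt_top.2 ⟨hf, hg⟩)

theorem InLp.neg {p : ℝ} {f : Fun01} (hf : InLp p f) : InLp p (-f) := by
  unfold InLp
  rw [nrm_neg]
  exact hf

theorem InLp.sub {p : ℝ} (hp : 1 ≤ p) {f g : Fun01} (hf : InLp p f) (hg : InLp p g) :
    InLp p (f - g) := by
  rw [sub_eq_add_neg]
  exact hf.add hp hg.neg

/-- Approximation of `y ∈ L^p` by elements of `L^q`. -/
theorem approx {p q : ℝ} {y : Fun01} (hy : InLp p y) {e : ℝ≥0∞} (he : e ≠ 0) :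
    ∃ g : Fun01, InLp q g ∧ nrm p (y - g) < e := by
  have hy' : MemLp y (ENNReal.ofReal p) lam := ⟨y.aestronglyMeasurable, hy⟩
  obtain ⟨g, hg, -⟩ := hy'.exists_simpleFunc_eLpNorm_sub_lt ENNReal.ofReal_ne_top he
  have hm : AEStronglyMeasurable g lam := g.aestronglyMeasurable
  refine ⟨AEEqFun.mk g hm, ?_, ?_⟩
  · unfold InLp nrm
    rw [eLpNorm_congr_ae (AEEqFun.coeFn_mk g hm)]
    exact (SimpleFunc.memLp_of_isFiniteMeasure g (ENNReal.ofReal q) lam).eLpNorm_lt_top
  · unfold nrm
    refine lt_of_le_of_lt (le_of_eq (eLpNorm_congr_ae ?_)) hg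
    filter_upwards [AEEqFun.coeFn_sub y (AEEqFun.mk g hm), AEEqFun.coeFn_mk g hm] with x h1 h2
    rw [h1, Pi.sub_apply, Pi.sub_apply, h2]

/-- The Lipschitz estimate in `L^q` extends to the pairs in `L^p` with a difference in `L^q`. -/
theorem cosets {U : Fun01 → Fun01} {M₀ M₁ : ℝ≥0} {p q : ℝ} (hp : 1 ≤ p) (hpq : p ≤ q)
    (h0 : LipschitzOnLp p M₀ U) (h1 : LipschitzOnLp q M₁ U) {y z : Fun01} (hy : InLp p y)
    (hz : InLp q z) : nrm q (U (y + z) - U y) ≤ M₁ * nrm q z := by
  have hq : 1 ≤ q := hp.trans hpq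
  have hzp : InLp p z := hz.mono hpq
  choose g hgq hg using fun n : ℕ => approx (p := p) (q := q) hy
    (e := ((n : ℝ≥0∞) + 1)⁻¹) (by simp)
  set F : ℕ → Fun01 := fun n => U (g n + z) - U (g n) with hF
  have hFq : ∀ n, nrm q (F n) ≤ M₁ * nrm q z := by
    intro n
    have := h1.2 (g n + z) (g n) ((hgq n).add hq hz) (hgq n)
    rwa [add_sub_cancel_left] at this
  have hgp : ∀ n, InLp p (g n) := fun n => (hgq n).mono hpq
  have hlim : ∀ n, nrm p (F n - (U (y + z) - U y)) ≤ 2 * M₀ * ((n : ℝ≥0∞) + 1)⁻¹ := by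
    intro n
    have e1 : F n - (U (y + z) - U y) = (U (g n + z) - U (y + z)) + (U y - U (g n)) := by
      rw [hF]
      show U (g n + z) - U (g n) - (U (y + z) - U y) = _
      generalize U (g n + z) = A
      generalize U (g n) = B
      generalize U (y + z) = D
      generalize U y = E
      abel
    rw [e1]
    refine (nrm_add hp _ _).trans ?_
    have e2 := h0.2 (g n + z) (y + z) ((hgp n).add hp hzp) (hy.add hp hzp)
    rw [add_sub_add_right_eq_sub, nrm_sub_comm] at e2
    have e3 := h0.2 y (g n) hy (hgp n)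
    rw [nrm_sub_comm (g n) y] at e2
    calc nrm p (U (g n + z) - U (y + z)) + nrm p (U y - U (g n))
        ≤ M₀ * nrm p (y - g n) + M₀ * nrm p (y - g n) := by
          refine add_le_add ?_ e3
          rw [nrm_sub_comm]
          exact e2
      _ ≤ M₀ * ((n : ℝ≥0∞) + 1)⁻¹ + M₀ * ((n : ℝ≥0∞) + 1)⁻¹ := by
          gcongr <;> exact (hg n).le
      _ = 2 * M₀ * ((n : ℝ≥0∞) + 1)⁻¹ := by ring
  have htend : Tendsto (fun n => nrm p (F n - (U (y + z) - U y))) atTop (𝓝 0) := by
    refine tendsto_of_tendsto_of_tendsto_of_le_of_le tendsto_const_nhds ?_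
      (fun n => zero_le) hlim
    have h2 : Tendsto (fun n : ℕ => ((n : ℝ≥0∞) + 1)⁻¹) atTop (𝓝 0) := by
      have := ENNReal.tendsto_inv_nat_nhds_zero.comp (tendsto_add_atTop_nat 1)
      refine this.congr fun n => ?_
      simp
    have h3 := ENNReal.Tendsto.const_mul (a := 2 * (M₀ : ℝ≥0∞)) h2
      (Or.inr (ENNReal.mul_ne_top (by simp) ENNReal.coe_ne_top))
    rwa [mul_zero] at h3
  have hmeas : TendstoInMeasure lam (fun n => (F n : ℝ → ℂ)) atTop
      ((U (y + z) - U y : Fun01) : ℝ → ℂ) := by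
    refine tendstoInMeasure_of_tendsto_eLpNorm (p := ENNReal.ofReal p) ?_
      (fun n => (F n).aestronglyMeasurable) (U (y + z) - U y).aestronglyMeasurable ?_
    · have : (0 : ℝ) < p := by linarith
      simpa using this
    · refine htend.congr fun n => ?_
      unfold nrm
      exact eLpNorm_congr_ae (AEEqFun.coeFn_sub _ _)
  obtain ⟨ns, -, hns⟩ := hmeas.exists_seq_tendsto_ae
  unfold nrm
  exact Lp.eLpNorm_le_of_ae_tendsto (u := atTop) (Eventually.of_forall fun n => hFq (ns n))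
    (fun n => (F (ns n)).aestronglyMeasurable) hns

/-- Truncation at the height `t`. -/
noncomputable def trunc (t : ℝ) (z : Fun01) : Fun01 :=
  AEEqFun.mk ({s | ‖z s‖ ≤ t}.indicator z)
    (z.stronglyMeasurable.indicator
      (measurableSet_le z.measurable.norm measurable_const)).aestronglyMeasurable

theorem trunc_ae (t : ℝ) (z : Fun01) :
    ∀ᵐ s ∂lam, trunc t z s = if ‖z s‖ ≤ t then z s else 0 := by
  filter_upwards [AEEqFun.coeFn_mk ({s | ‖z s‖ ≤ t}.indicator z)
    (z.stronglyMeasurable.indicator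
      (measurableSet_le z.measurable.norm measurable_const)).aestronglyMeasurable] with s hs
  unfold trunc
  rw [hs]
  rfl

theorem trunc_inLp {t : ℝ} (ht : 0 < t) {q : ℝ} (z : Fun01) : InLp q (trunc t z) := by
  unfold InLp nrm
  have : MemLp (trunc t z) (ENNReal.ofReal q) lam := by
    refine MemLp.of_bound (trunc t z).aestronglyMeasurable t ?_
    filter_upwards [trunc_ae t z] with s hs
    rw [hs]
    split_ifs with h
    · exact h
    · simpa using ht.le
  exact this.eLpNorm_lt_top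

theorem cheb {p : ℝ} (hp : 0 < p) {M t : ℝ} (hM : 0 < M) (ht : 0 < t) {w z : Fun01}
    (h : nrm p w ≤ ENNReal.ofReal M * nrm p z) :
    lam {s | ENNReal.ofReal (M * t) ≤ ‖w s‖ₑ} ≤ ENNReal.ofReal (t ^ (-p)) * nrm p z ^ p := by
  have h1 := mul_meas_ge_le_pow_eLpNorm' lam (p := ENNReal.ofReal p) (by simpa using hp)
    ENNReal.ofReal_ne_top w.aestronglyMeasurable (ENNReal.ofReal (M * t))
  rw [ENNReal.toReal_ofReal hp.le] at h1
  have h2 : ENNReal.ofReal (M * t) ^ p * lam {s | ENNReal.ofReal (M * t) ≤ ‖w s‖ₑ} ≤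
      (ENNReal.ofReal M * nrm p z) ^ p := h1.trans (ENNReal.rpow_le_rpow h hp.le)
  have hMt : 0 < M * t := mul_pos hM ht
  rw [ENNReal.ofReal_rpow_of_pos hMt, ENNReal.mul_rpow_of_nonneg _ _ hp.le,
    ENNReal.ofReal_rpow_of_pos hM] at h2
  have h3 := mul_le_mul_right h2 (ENNReal.ofReal ((M * t) ^ (-p)))
  rw [← mul_assoc, ← mul_assoc, ← ENNReal.ofReal_mul (Real.rpow_nonneg hMt.le _),
    ← ENNReal.ofReal_mul (Real.rpow_nonneg hMt.le _), ← Real.rpow_add hMt] at h3
  have h4 : (M * t) ^ (-p) * M ^ p = t ^ (-p) := by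
    rw [Real.mul_rpow hM.le ht.le, mul_right_comm, ← Real.rpow_add hM]
    simp
  rw [h4] at h3
  simpa using h3

/-- For all exponents `1 ≤ β < γ < α < ∞`, `L^γ[0,1]` is a Lipschitz interpolation space between
`L^β[0,1]` and `L^α[0,1]`. -/
theorem result (β γ α : ℝ) (hβ : 1 ≤ β) (hβγ : β < γ) (hγα : γ < α) :
    ∃ C : ℝ≥0, 0 < C ∧ ∀ (U : Fun01 → Fun01) (M₀ M₁ : ℝ≥0),
      LipschitzOnLp β M₀ U → LipschitzOnLp α M₁ U → LipschitzOnLp γ (C * max M₀ M₁) U := by
  have hβ0 : 0 < β := by linarith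
  have hγ0 : 0 < γ := by linarith
  have hγ1 : 1 ≤ γ := by linarith
  have hα0 : 0 < α := by linarith
  have hα1 : 1 ≤ α := by linarith
  have hβα : β ≤ α := by linarith
  set K : ℝ := γ / (γ - β) + γ / (α - γ) with hK
  have hK0 : 0 < K := by
    have h1 : 0 < γ - β := by linarith
    have h2 : 0 < α - γ := by linarith
    positivity
  have hC0 : 0 < 2 * K ^ (1 / γ) := by positivity
  obtain ⟨C, hC⟩ : ∃ C : ℝ≥0, (C : ℝ) = 2 * K ^ (1 / γ) := ⟨⟨_, hC0.le⟩, rfl⟩
  have hCpos : 0 < C := by exact_mod_cast hC ▸ hC0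
  refine ⟨C, hCpos, fun U M₀ M₁ h0 h1 => ?_⟩
  have key : ∀ x y, InLp γ x → InLp γ y →
      nrm γ (U x - U y) ≤ (C * max M₀ M₁ : ℝ≥0) * nrm γ (x - y) := by
    intro x y hx hy
    have hxβ := hx.mono hβγ.le
    have hyβ := hy.mono hβγ.le
    rcases eq_or_ne (max M₀ M₁) 0 with hM | hM
    · have hM0 : M₀ = 0 := by
        have : M₀ ≤ 0 := hM ▸ le_max_left _ _
        exact le_antisymm this zero_le
      have h2 := h0.2 x y hxβ hyβ
      rw [hM0, ENNReal.coe_zero, zero_mul, nonpos_iff_eq_zero] at h2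
      unfold nrm at h2
      rw [eLpNorm_eq_zero_iff (U x - U y).aestronglyMeasurable (by simpa using hβ0)] at h2
      unfold nrm
      rw [eLpNorm_congr_ae h2, eLpNorm_zero]
      exact zero_le
    obtain ⟨M, hMdef⟩ : ∃ M : ℝ, M = (max M₀ M₁ : ℝ≥0) := ⟨_, rfl⟩
    have hMpos : 0 < M := by
      rw [hMdef]
      exact_mod_cast pos_iff_ne_zero.2 hM
    have hM0 : (M₀ : ℝ≥0∞) ≤ ENNReal.ofReal M := by
      rw [hMdef, ENNReal.ofReal_coe_nnreal]
      exact_mod_cast le_max_left _ _
    have hM1 : (M₁ : ℝ≥0∞) ≤ ENNReal.ofReal M := by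
      rw [hMdef, ENNReal.ofReal_coe_nnreal]
      exact_mod_cast le_max_right _ _
    set w : Fun01 := U x - U y with hw
    set z : Fun01 := x - y with hz
    have hmain := marc (μ := lam) (a := fun s => ‖w s‖ / (2 * M)) (b := fun s => ‖z s‖)
      (w.measurable.norm.div_const _) z.measurable.norm (fun s => by positivity)
      (fun s => norm_nonneg _) hβ0 hβγ hγα (by
        intro t ht
        set z1 : Fun01 := trunc t z with hz1
        have hz1q : ∀ q, InLp q z1 := fun q => trunc_inLp ht z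
        set v : Fun01 := y + z1 with hv
        have hvβ : InLp β v := hyβ.add hβ (hz1q β)
        have e0 : nrm β (U x - U v) ≤ ENNReal.ofReal M * nrm β (z - z1) := by
          have h2 := h0.2 x v hxβ hvβ
          have h3 : x - v = z - z1 := by rw [hv, hz]; abel
          rw [h3] at h2
          exact h2.trans (mul_le_mul_left hM0 _)
        have e1 : nrm α (U v - U y) ≤ ENNReal.ofReal M * nrm α z1 :=
          (cosets hβ hβα h0 h1 hyβ (hz1q α)).trans (mul_le_mul_left hM1 _)
        have c0 := cheb hβ0 hMpos ht e0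
        have c1 := cheb hα0 hMpos ht e1
        have i0 : nrm β (z - z1) ^ β =
            ∫⁻ s, ENNReal.ofReal (if t < ‖z s‖ then ‖z s‖ ^ β else 0) ∂lam := by
          rw [nrm_rpow hβ0]
          refine lintegral_congr_ae ?_
          filter_upwards [AEEqFun.coeFn_sub z z1, trunc_ae t z] with s k1 k2
          rw [k1, Pi.sub_apply, hz1, k2]
          by_cases h : ‖z s‖ ≤ t
          · rw [if_pos h, if_neg (not_lt.2 h), sub_self, norm_zero, Real.zero_rpow hβ0.ne']
          · rw [if_neg h, if_pos (not_le.1 h), sub_zero]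
        have i1 : nrm α z1 ^ α =
            ∫⁻ s, ENNReal.ofReal (if ‖z s‖ ≤ t then ‖z s‖ ^ α else 0) ∂lam := by
          rw [nrm_rpow hα0]
          refine lintegral_congr_ae ?_
          filter_upwards [trunc_ae t z] with s k2
          rw [hz1, k2]
          by_cases h : ‖z s‖ ≤ t
          · rw [if_pos h, if_pos h]
          · rw [if_neg h, if_neg h, norm_zero, Real.zero_rpow hα0.ne']
        rw [i0] at c0
        rw [i1] at c1
        refine le_trans ?_ (add_le_add c0 c1)
        refine le_trans (measure_mono_ae ?_) (measure_union_le _ _)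
        have e2 : w = (U x - U v) + (U v - U y) := by rw [hw]; abel
        have e3 := AEEqFun.coeFn_add (U x - U v) (U v - U y)
        rw [← e2] at e3
        filter_upwards [e3] with s hs hts
        have hts' : t < ‖w s‖ / (2 * M) := hts
        rw [lt_div_iff₀ (by positivity)] at hts'
        rw [hs, Pi.add_apply] at hts'
        by_contra hcon
        have hcon1 : ¬ (ENNReal.ofReal (M * t) ≤ ‖(U x - U v : Fun01) s‖ₑ) := fun h =>
          hcon (Or.inl h)
        have hcon2 : ¬ (ENNReal.ofReal (M * t) ≤ ‖(U v - U y : Fun01) s‖ₑ) := fun h =>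
          hcon (Or.inr h)
        rw [not_le, ← ofReal_norm, ENNReal.ofReal_lt_ofReal_iff (by positivity)]
          at hcon1 hcon2
        have := norm_add_le ((U x - U v : Fun01) s) ((U v - U y : Fun01) s)
        linarith)
    -- conclusion
    have h2 : ∫⁻ s, ENNReal.ofReal ((‖w s‖ / (2 * M)) ^ γ) ∂lam =
        ENNReal.ofReal ((2 * M) ^ (-γ)) * nrm γ w ^ γ := by
      rw [nrm_rpow hγ0, ← lintegral_const_mul' _ _ ENNReal.ofReal_ne_top]
      refine lintegral_congr fun s => ?_
      rw [← ENNReal.ofReal_mul (by positivity)]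
      congr 1
      rw [Real.div_rpow (norm_nonneg _) (by positivity), Real.rpow_neg (by positivity)]
      field_simp
    rw [h2, ← nrm_rpow hγ0] at hmain
    have h3 := mul_le_mul_right hmain (ENNReal.ofReal ((2 * M) ^ γ))
    rw [← mul_assoc, ← ENNReal.ofReal_mul (by positivity), ← Real.rpow_add (by positivity),
      add_neg_cancel, Real.rpow_zero, ENNReal.ofReal_one, one_mul, ← mul_assoc,
      ← ENNReal.ofReal_mul (by positivity)] at h3
    have h4 : (2 * M) ^ γ * K = (2 * M * K ^ (1 / γ)) ^ γ := by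
      rw [Real.mul_rpow (x := 2 * M) (y := K ^ (1 / γ)) (by positivity) (by positivity),
        ← Real.rpow_mul hK0.le, one_div, inv_mul_cancel₀ hγ0.ne', Real.rpow_one]
    rw [← hK, h4, ← ENNReal.ofReal_rpow_of_nonneg (by positivity) hγ0.le,
      ← ENNReal.mul_rpow_of_nonneg _ _ hγ0.le] at h3
    have h5 := (ENNReal.rpow_le_rpow_iff hγ0).1 h3
    refine h5.trans (le_of_eq ?_)
    congr 1
    rw [ENNReal.coe_nnreal_eq]
    congr 1
    rw [NNReal.coe_mul, hC, ← hMdef]
    ring
  refine ⟨fun x hx => ?_, key⟩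
  -- `U` maps `L^γ` into `L^γ`
  have hzero : ∀ q, InLp q (0 : Fun01) := by
    intro q
    unfold InLp nrm
    rw [eLpNorm_congr_ae AEEqFun.coeFn_zero, eLpNorm_zero]
    exact ENNReal.zero_lt_top
  have h2 : InLp γ (U 0) := (h1.1 0 (hzero α)).mono hγα.le
  have h3 : InLp γ (U x - U 0) := by
    refine lt_of_le_of_lt (key x 0 hx (hzero γ)) ?_
    rw [sub_zero]
    exact ENNReal.mul_lt_top ENNReal.coe_lt_top hx
  have := h3.add hγ1 h2
  rwa [sub_add_cancel] at this

end Pool.Agent.Results.MP_6e3e44_an.LipschitzInterpolation
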